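import Mathlib
import Pool.Agent.W5h78.Karp.Data

set_option autoImplicit false

/-! MP_257582_lc (helper78): the certificate is checked by the kernel. -/

namespace Pool.Agent.W5h78.Karp

theorem rels0_ok : rels0.all (okR rT) = true := by decide +kernel

theorem rels1_ok : rels1.all (okR rT) = true := by decide +kernel

theorem rels2_ok : rels2.all (okR rT) = true := by decide +kernel

theorem rels3_ok : rels3.all (okR rT) = true := by decide +kernel

theorem rels4_ok : rels4.all (okR rT) = true := by decide +kernel

theorem rels5_ok : rels5.all (okR rT) = true := by decide +kernel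

theorem rels6_ok : rels6.all (okR rT) = true := by decide +kernel

theorem rels7_ok : rels7.all (okR rT) = true := by decide +kernel

theorem rels8_ok : rels8.all (okR rT) = true := by decide +kernel

theorem imps0_ok : imps0.all (okI rT) = true := by decide +kernel

theorem imps1_ok : imps1.all (okI rT) = true := by decide +kernel

theorem imps2_ok : imps2.all (okI rT) = true := by decide +kernel

theorem imps3_ok : imps3.all (okI rT) = true := by decide +kernel

theorem imps4_ok : imps4.all (okI rT) = true := by decide +kernel

theorem eqL_eq : rels.map RD.E = eqL := by decide +kernel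

theorem impL_eq : imps.map (fun t => (t.1, t.2.1)) = impL := by decide +kernel

theorem refute_ok : refute eqL impL blocks (run eqL impL ini (2, 1)) = true := by
  decide +kernel

theorem rels_ok : rels.all (okR rT) = true := by
  simp only [rels, List.all_append, rels0_ok, rels1_ok, rels2_ok, rels3_ok, rels4_ok, rels5_ok, rels6_ok, rels7_ok, rels8_ok, Bool.and_self]

theorem imps_ok : imps.all (okI rT) = true := by
  simp only [imps, List.all_append, imps0_ok, imps1_ok, imps2_ok, imps3_ok, imps4_ok, Bool.and_self]

/-- no property satisfies the facts -/
theorem cert (f : ℕ → ℤ) (h : FK f (fun s B ws => OkRel (pis s) B ws)) : False := by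
  have hg : Good (vv f rT) eqL impL := by
    refine ⟨vv_le h rT, ?_, ?_⟩
    · intro E hE
      rw [← eqL_eq, List.mem_map] at hE
      obtain ⟨d, hd, rfl⟩ := hE
      exact okR_sound h rT d (List.all_eq_true.1 rels_ok d hd)
    · intro t ht
      rw [← impL_eq, List.mem_map] at ht
      obtain ⟨d, hd, rfl⟩ := ht
      exact okI_sound h rT d (List.all_eq_true.1 imps_ok d hd)
  refine refute_sound hg blocks (run_inv hg ini ?_) refute_ok
  constructor
  · intro i hi
    have : i = 1 := by
      have h2 : (2 : ℕ) = 2 ^ 1 := rfl
      rw [h2, Nat.testBit_two_pow, decide_eq_true_eq] at hi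
      exact hi.symm
    subst this
    rfl
  · intro i hi
    have : i = 0 := by
      have h2 : (1 : ℕ) = 2 ^ 0 := rfl
      rw [h2, Nat.testBit_two_pow, decide_eq_true_eq] at hi
      exact hi.symm
    subst this
    rfl

end Pool.Agent.W5h78.Karp
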