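import Mathlib
import Pool.Agent.H119R2.Kp.Defs
import Pool.Agent.H119R2.Kp.Defs2
import Pool.Agent.H119R2.Kp.PVE
import Pool.Agent.W5h78.Karp.RelPi

set_option autoImplicit false

/-!
MP_257582_lc (helper78): patterns with five parts (part `0` of size `r`, parts `1, …, 4` of size
`p`) coded by masks, and the facts about the values of a property on them.
-/

namespace Pool.Agent.W5h78.Karp

open Finset
open Pool.Agent.H98R2.Ev (EV toG NE)
open Pool.Agent.H119R2.Kp

/-- pattern of a mask: bit `5 a + b` says that parts `a` and `b` are joined -/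
def pK (g : ℕ) : Fin 5 → Fin 5 → Bool := fun a b => g.testBit (5 * a.val + b.val)

/-- value of `P` on the pattern of the mask -/
noncomputable def fK {n : ℕ} (P : SimpleGraph (Fin n) → Prop) (r p : ℕ) (g : ℕ) : ℤ :=
  hv P (sz 4 r p) (pK g)

/-- alternating sum over all sub-unions of the list -/
def altO (f : ℕ → ℤ) : List ℕ → ℕ → ℤ
  | [], g => f g
  | w :: ws, g => altO f ws g - altO f ws (g ||| w)

/-- conditions for a relation -/
structure OkRel (π : Equiv.Perm (Fin 4)) (B : ℕ) (ws : List ℕ) : Prop where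
  c1 : ∀ A C, ad (pK B) A C = true → ad (pK B) (pip π A) (pip π C) = true
  c2 : ∀ w ∈ ws, ∀ A C, ad (pK w) A C = true → ad (pK w) (pip π A) (pip π C) = true
  c3 : ws.Pairwise (fun w w' => ∀ A C, ad (pK w) A C = true → ad (pK w') A C = false)
  c4 : ∀ w ∈ ws, ∀ A C, ad (pK B) A C = true → ad (pK w) A C = false
  c5 : ∀ w ∈ ws, ∃ A C : Fin 4, ad (pK w) A.succ C.succ = true
  c6 : ∀ w ∈ ws, ∀ C, ad (pK w) 0 C = false
  c7 : ∀ w ∈ ws, ∀ A C A' C' : Fin 4, ad (pK w) A.succ C.succ = true →
    ad (pK w) A'.succ C'.succ = true →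
    ∃ t : Fin 4, ((⇑π)^[t.val] A = A' ∧ (⇑π)^[t.val] C = C') ∨
      ((⇑π)^[t.val] A = C' ∧ (⇑π)^[t.val] C = A')
  c8 : 12 ≤ (ws.map (fun w => ∑ A : Fin 5, ∑ C : Fin 5, if ad (pK w) A C = true then 1 else 0)).sum
  c9 : (ws.map (fun w => ∑ A : Fin 5, if ad (pK w) A A = true then 1 else 0)).sum ≤ 4

theorem cnt_eq (r p w : ℕ) (h6 : ∀ C, ad (pK w) 0 C = false) :
    cnt (sz 4 r p) (pK w) + (∑ A : Fin 5, if ad (pK w) A A = true then 1 else 0) * p =
      (∑ A : Fin 5, ∑ C : Fin 5, if ad (pK w) A C = true then 1 else 0) * (p * p) := by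
  have hs : ∀ A : Fin 5, A ≠ 0 → sz 4 r p A = p := by
    intro A hA
    obtain ⟨j, rfl⟩ := Fin.exists_succ_eq.2 hA
    rfl
  unfold cnt
  rw [Finset.sum_mul, Finset.sum_mul, ← Finset.sum_add_distrib]
  apply Finset.sum_congr rfl
  intro A _
  by_cases hA : A = 0
  · subst hA
    simp [h6]
  · rw [Finset.sum_mul]
    have h1 : (if ad (pK w) A A = true then 1 else 0) * p =
        ∑ C : Fin 5, if A = C then (if ad (pK w) A C = true then p else 0) else 0 := by
      rw [Finset.sum_ite_eq, if_pos (Finset.mem_univ _)]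
      split_ifs <;> simp
    rw [h1, ← Finset.sum_add_distrib]
    apply Finset.sum_congr rfl
    intro C _
    by_cases hC : C = 0
    · subst hC
      have : ad (pK w) A 0 = false := by rw [ad_comm]; exact h6 A
      simp [this]
    · rw [hs A hA, hs C hC]
      split_ifs with h2 h3
      · rw [one_mul]
        rcases Nat.eq_zero_or_pos p with hp | hp
        · subst hp; simp
        · obtain ⟨u, rfl⟩ : ∃ u, p = u + 1 := ⟨p - 1, by omega⟩
          simp only [Nat.add_sub_cancel]
          ring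
      · simp
      · simp
      · simp

theorem ad_or (g w : ℕ) (a b : Fin 5) : pK (g ||| w) a b = (pK g a b || pK w a b) := by
  simp [pK, Nat.testBit_or]


/-- alternating sums as sums over sets of classes -/
theorem alt_list {n : ℕ} (P : SimpleGraph (Fin n) → Prop) (r p : ℕ) {m : ℕ} (B : ℕ)
    (w : Fin m → ℕ) (l : List (Fin m)) (hl : l.Nodup) (J : Finset (Fin m)) (g : ℕ)
    (hJ : ∀ i ∈ l, i ∉ J)
    (hg : pK g = addP (pK B) (fun j => pK (w j)) J) :
    altO (fK P r p) (l.map w) g = ∑ I ∈ l.toFinset.powerset, (-1 : ℤ) ^ I.card *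
      hv P (sz 4 r p) (addP (pK B) (fun j => pK (w j)) (I ∪ J)) := by
  induction l generalizing g J with
  | nil => simp [altO, fK, hg]
  | cons a l ih =>
    rw [List.nodup_cons] at hl
    have ha : a ∉ l.toFinset := by simpa using hl.1
    have h2 : pK (g ||| w a) = addP (pK B) (fun j => pK (w j)) (insert a J) := by
      funext x y
      rw [ad_or, hg]
      simp only [addP, Finset.mem_insert]
      rw [Bool.eq_iff_iff]
      simp only [Bool.or_eq_true, decide_eq_true_eq]
      constructor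
      · rintro ((h | ⟨j, hj, h⟩) | h)
        · exact Or.inl h
        · exact Or.inr ⟨j, Or.inr hj, h⟩
        · exact Or.inr ⟨a, Or.inl rfl, h⟩
      · rintro (h | ⟨j, rfl | hj, h⟩)
        · exact Or.inl (Or.inl h)
        · exact Or.inr h
        · exact Or.inl (Or.inr ⟨j, hj, h⟩)
    rw [List.toFinset_cons, sum_powerset_insert ha, List.map_cons, altO,
      ih hl.2 J g (fun i hi => hJ i (List.mem_cons_of_mem _ hi)) hg,
      ih hl.2 (insert a J) (g ||| w a) (fun i hi => by
        rw [Finset.mem_insert]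
        rintro (rfl | h)
        · exact hl.1 hi
        · exact hJ i (List.mem_cons_of_mem _ hi) h) h2,
      sub_eq_add_neg, ← sum_neg_distrib]
    congr 1
    apply sum_congr rfl
    intro I hI
    have haI : a ∉ I := fun h => ha (mem_powerset.1 hI h)
    rw [card_insert_of_notMem haI, pow_succ]
    have h3 : I ∪ insert a J = insert a I ∪ J := by
      ext x; simp only [Finset.mem_union, Finset.mem_insert]; tauto
    rw [h3]
    ring

theorem rel_alt {n q : ℕ} {P : SimpleGraph (Fin n) → Prop} (hP : GP n q P) (r p : ℕ)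
    [Fact p.Prime] (hp : 2 < p) (hn : r + 4 * p = n) (hq : q + 2 * p < 6 * (p * p))
    (π : Equiv.Perm (Fin 4)) (mk : Fin 4 → Bool)
    (hmk : ∀ i, ∃ t, (π ^ t) i = i ∧ mc π mk t i = 1) (B : ℕ) (ws : List ℕ)
    (h : OkRel π B ws) : altO (fK P r p) ws B = 0 := by
  have hw : ws = (List.finRange ws.length).map (fun j => ws.get j) := by
    rw [List.map_get_finRange]
  have hb : pK B = addP (pK B) (fun j : Fin ws.length => pK (ws.get j)) ∅ := by
    funext x y
    simp [addP]
  have h1 := alt_list P r p B (fun j => ws.get j) (List.finRange ws.length)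
    (List.nodup_finRange _) ∅ B (by simp) hb
  rw [← hw] at h1
  rw [h1]
  have h2 : (List.finRange ws.length).toFinset = (univ : Finset (Fin ws.length)) := by
    ext x; simp
  rw [h2, Finset.powerset_univ]
  simp only [Finset.union_empty]
  refine relPi hP 4 r p hp hn π mk hmk (pK B) (fun j => pK (ws.get j)) h.c1
    (fun j => h.c2 _ (List.get_mem _ _)) ?_ ?_ (fun j => h.c5 _ (List.get_mem _ _)) ?_ ?_ ?_
  · intro i j hij A C h3 h4
    have h5 := List.pairwise_iff_get.1 h.c3
    rcases lt_or_gt_of_ne hij with h6 | h6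
    · have := h5 i j h6 A C h3
      rw [this] at h4
      exact Bool.noConfusion h4
    · have := h5 j i h6 A C h4
      rw [this] at h3
      exact Bool.noConfusion h3
  · intro i A C h3 h4
    have := h.c4 _ (List.get_mem ws i) A C h3
    rw [this] at h4
    exact Bool.noConfusion h4
  · intro j A C h3
    have h4 := h.c6 _ (List.get_mem ws j)
    constructor
    · rintro rfl
      rw [h4] at h3
      exact Bool.noConfusion h3
    · rintro rfl
      rw [ad_comm, h4] at h3
      exact Bool.noConfusion h3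
  · intro j A C A' C' h3 h4
    obtain ⟨t, ht⟩ := h.c7 _ (List.get_mem ws j) A C A' C' h3 h4
    refine ⟨t.val, ?_⟩
    simpa [Equiv.Perm.iterate_eq_pow] using ht
  · -- the weights
    have e1 : ∑ j : Fin ws.length, cnt (sz 4 r p) (pK (ws.get j)) =
        (ws.map (fun w => cnt (sz 4 r p) (pK w))).sum := by
      rw [← List.sum_ofFn]
      congr 1
      conv_rhs => rw [hw]
      rw [List.map_map, List.ofFn_eq_map]
      rfl
    rw [e1]
    have e2 : ∀ l : List ℕ, (∀ w ∈ l, ∀ C, ad (pK w) 0 C = false) →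
        (l.map (fun w => cnt (sz 4 r p) (pK w))).sum +
        (l.map (fun w => ∑ A : Fin 5, if ad (pK w) A A = true then 1 else 0)).sum * p =
        (l.map (fun w => ∑ A : Fin 5, ∑ C : Fin 5,
          if ad (pK w) A C = true then 1 else 0)).sum * (p * p) := by
      intro l hl
      induction l with
      | nil => simp
      | cons a l ih =>
        have h7 := ih (fun w hw => hl w (List.mem_cons_of_mem _ hw))
        have h8 := cnt_eq r p a (hl a List.mem_cons_self)
        simp only [List.map_cons, List.sum_cons, add_mul] at h7 h8 ⊢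
        omega
    have e3 := e2 ws h.c6
    have e4 := h.c8
    have e5 := h.c9
    have e6 := Nat.mul_le_mul_right (p * p) e4
    have e7 := Nat.mul_le_mul_right p e5
    omega

/-- the facts used by the certificate -/
structure FK (f : ℕ → ℤ) (R : ℕ → ℕ → List ℕ → Prop) : Prop where
  h01 : ∀ g, f g = 0 ∨ f g = 1
  emb0 : ∀ σ : Equiv.Perm (Fin 5), σ 0 = 0 → ∀ g g',
    (∀ a b, pK g a b = true → pK g' (σ a) (σ b) = true) → f g ≤ f g'
  emb1 : ∀ σ τ : Equiv.Perm (Fin 5), σ 0 = 0 → τ 0 = 0 → ∀ g g',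
    (∀ i j a b, pK g i j = true → sw (σ i) (τ a) = true → sw (σ j) (τ b) = true →
      pK g' a b = true) → f g ≤ f g'
  isol : ∀ g a, (∀ b, pK g a b = false ∧ pK g b a = false) → f g = 0
  univ : ∀ g a, (∀ b, pK g a b = true) → f g = 1
  rel : ∀ s B ws, R s B ws → altO f ws B = 0

/-- transport matrix of the swap -/
def TT (r p : ℕ) (i a : Fin 5) : ℕ :=
  if i = 0 then (if a = 1 then r else 0)
    else if i = 1 then (if a = 0 then r else if a = 1 then p - r else 0)
    else if a = i then p else 0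

theorem TT_row (r p : ℕ) (hrp : r ≤ p) (i : Fin 5) : ∑ a, TT r p i a = sz 4 r p i := by
  rw [Fin.sum_univ_five]
  fin_cases i
  · simp [TT, sz]
  · simp only [TT, sz]
    simp
    exact Nat.add_sub_cancel' hrp
  · simp [TT, sz]; rfl
  · simp [TT, sz]; rfl
  · simp [TT, sz]; rfl

theorem TT_col (r p : ℕ) (hrp : r ≤ p) (a : Fin 5) : ∑ i, TT r p i a = sz 4 r p a := by
  rw [Fin.sum_univ_five]
  fin_cases a
  · simp [TT, sz]
  · simp only [TT, sz]
    simp
    exact Nat.add_sub_cancel' hrp
  · simp [TT, sz]; rfl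
  · simp [TT, sz]; rfl
  · simp [TT, sz]; rfl

theorem sz_perm (r p : ℕ) (σ : Equiv.Perm (Fin 5)) (hσ : σ 0 = 0) (i : Fin 5) :
    sz 4 r p (σ i) = sz 4 r p i := by
  have hs : ∀ A : Fin 5, A ≠ 0 → sz 4 r p A = p := by
    intro A hA
    obtain ⟨j, rfl⟩ := Fin.exists_succ_eq.2 hA
    rfl
  by_cases hi : i = 0
  · rw [hi, hσ]
  · rw [hs i hi, hs (σ i)]
    intro h1
    exact hi (σ.injective (h1.trans hσ.symm))

theorem fK_emb0 {n q : ℕ} {P : SimpleGraph (Fin n) → Prop} (hP : GP n q P) (r p : ℕ)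
    (σ : Equiv.Perm (Fin 5)) (hσ : σ 0 = 0) (g g' : ℕ)
    (h : ∀ a b, pK g a b = true → pK g' (σ a) (σ b) = true) : fK P r p g ≤ fK P r p g' := by
  refine emb hP (sz 4 r p) (sz 4 r p) (pK g) (pK g')
    (fun i a => if a = σ i then sz 4 r p i else 0) (fun i => ?_) (fun a => ?_) ?_
  · rw [Finset.sum_ite_eq', if_pos (Finset.mem_univ _)]
  · have h1 : ∀ i, (if a = σ i then sz 4 r p i else 0) =
        if i = σ.symm a then sz 4 r p i else 0 := by
      intro i
      by_cases h2 : a = σ i
      · rw [if_pos h2, if_pos (by rw [h2, Equiv.symm_apply_apply])]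
      · rw [if_neg h2, if_neg (fun h3 => h2 (by rw [h3, Equiv.apply_symm_apply]))]
    rw [Finset.sum_congr rfl (fun i _ => h1 i), Finset.sum_ite_eq', if_pos (Finset.mem_univ _),
      ← sz_perm r p σ hσ, Equiv.apply_symm_apply]
  · intro i j a b hij hia hjb
    have h1 : a = σ i := by
      by_contra hne
      exact hia (if_neg hne)
    have h2 : b = σ j := by
      by_contra hne
      exact hjb (if_neg hne)
    subst h1 h2
    exact hij.imp (h _ _) (h _ _)

theorem fK_emb1 {n q : ℕ} {P : SimpleGraph (Fin n) → Prop} (hP : GP n q P) (r p : ℕ)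
    (hrp : r ≤ p) (σ τ : Equiv.Perm (Fin 5)) (hσ : σ 0 = 0) (hτ : τ 0 = 0) (g g' : ℕ)
    (h : ∀ i j a b, pK g i j = true → sw (σ i) (τ a) = true → sw (σ j) (τ b) = true →
      pK g' a b = true) : fK P r p g ≤ fK P r p g' := by
  have hsw : ∀ i a, TT r p i a ≠ 0 → sw i a = true := by
    intro i a hia
    simp only [TT] at hia
    unfold sw
    split_ifs at hia ⊢ <;> simp_all
  refine emb hP (sz 4 r p) (sz 4 r p) (pK g) (pK g') (fun i a => TT r p (σ i) (τ a))
    (fun i => ?_) (fun a => ?_) ?_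
  · rw [Equiv.sum_comp τ (fun a => TT r p (σ i) a), TT_row r p hrp, sz_perm r p σ hσ]
  · rw [Equiv.sum_comp σ (fun i => TT r p i (τ a)), TT_col r p hrp, sz_perm r p τ hτ]
  · intro i j a b hij hia hjb
    rcases hij with h1 | h1
    · exact Or.inl (h i j a b h1 (hsw _ _ hia) (hsw _ _ hjb))
    · exact Or.inr (h j i b a h1 (hsw _ _ hjb) (hsw _ _ hia))

theorem fK_isol {n q : ℕ} {P : SimpleGraph (Fin n) → Prop} (hP : GP n q P) (hS : Star n P)
    (r p : ℕ) (hp : 0 < p) (hr : 0 < r) (g : ℕ) (a : Fin 5)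
    (h : ∀ b, pK g a b = false ∧ pK g b a = false) : fK P r p g = 0 := by
  refine hv_isol hP hS (sz 4 r p) (pK g) a ?_ h
  refine Fin.cases ?_ (fun j => ?_) a
  · exact hr.ne'
  · exact hp.ne'

theorem fK_univ {n q : ℕ} {P : SimpleGraph (Fin n) → Prop} (hP : GP n q P) (hS : Star n P)
    (r p : ℕ) (hp : 0 < p) (hr : 0 < r) (hn : r + 4 * p = n) (g : ℕ) (a : Fin 5)
    (h : ∀ b, pK g a b = true) : fK P r p g = 1 := by
  refine hv_univ hP hS (sz 4 r p) ?_ (pK g) a ?_ (fun j => Or.inl (h j))
  · rw [Fin.sum_univ_succ]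
    simp only [sz, Fin.cons_zero, Fin.cons_succ, Finset.sum_const, Finset.card_univ,
      Fintype.card_fin, smul_eq_mul]
    exact hn
  · refine Fin.cases ?_ (fun j => ?_) a
    · exact hr.ne'
    · exact hp.ne'

end Pool.Agent.W5h78.Karp
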