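import Mathlib
import Pool.Agent.W5h78.Karp.FK

set_option autoImplicit false

/-!
MP_257582_lc (helper78): the checker of the finite certificate and its soundness.
-/

namespace Pool.Agent.W5h78.Karp

open Finset
open Pool.Agent.H119R2.Kp

/-! ### The combinatorial part: 0-1 variables, linear equations, implications -/

/-- weighted sum -/
def wsum (v : ℕ → ℕ) (l : List (ℕ × ℕ)) : ℕ := (l.map (fun t => t.1 * v t.2)).sum

/-- lower bound of a weighted sum, `o` is the mask of the variables known to be `1` -/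
def lob (o : ℕ) : List (ℕ × ℕ) → ℕ
  | [] => 0
  | (c, i) :: l => (if o.testBit i then c else 0) + lob o l

/-- upper bound of a weighted sum, `z` is the mask of the variables known to be `0` -/
def hib (z : ℕ) : List (ℕ × ℕ) → ℕ
  | [] => 0
  | (c, i) :: l => (if z.testBit i then 0 else c) + hib z l

/-- the masks are correct -/
def Inv (v : ℕ → ℕ) (o z : ℕ) : Prop :=
  (∀ i, o.testBit i = true → v i = 1) ∧ (∀ i, z.testBit i = true → v i = 0)

theorem lob_le {v : ℕ → ℕ} {o z : ℕ} (h : Inv v o z) (l : List (ℕ × ℕ)) :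
    lob o l ≤ wsum v l := by
  induction l with
  | nil => exact le_rfl
  | cons t l ih =>
    obtain ⟨c, i⟩ := t
    simp only [lob, wsum, List.map_cons, List.sum_cons] at ih ⊢
    split_ifs with h1
    · rw [h.1 i h1, mul_one]
      exact Nat.add_le_add_left ih _
    · rw [zero_add]
      exact ih.trans (Nat.le_add_left _ _)

theorem le_hib {v : ℕ → ℕ} (hv : ∀ i, v i ≤ 1) {o z : ℕ} (h : Inv v o z) (l : List (ℕ × ℕ)) :
    wsum v l ≤ hib z l := by
  induction l with
  | nil => exact le_rfl
  | cons t l ih =>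
    obtain ⟨c, i⟩ := t
    simp only [hib, wsum, List.map_cons, List.sum_cons] at ih ⊢
    split_ifs with h1
    · rw [h.2 i h1, mul_zero]
      exact Nat.add_le_add_left ih _
    · exact Nat.add_le_add ((Nat.mul_le_mul_left c (hv i)).trans (by rw [mul_one])) ih

/-- the equation cannot hold -/
def infeas (o z : ℕ) (E : List (ℕ × ℕ) × List (ℕ × ℕ)) : Bool :=
  decide (hib z E.1 < lob o E.2) || decide (hib z E.2 < lob o E.1)

theorem infeas_sound {v : ℕ → ℕ} (hv : ∀ i, v i ≤ 1) {o z : ℕ} (h : Inv v o z)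
    (E : List (ℕ × ℕ) × List (ℕ × ℕ)) (hE : wsum v E.1 = wsum v E.2)
    (hi : infeas o z E = true) : False := by
  unfold infeas at hi
  rw [Bool.or_eq_true, decide_eq_true_eq, decide_eq_true_eq] at hi
  have h1 := lob_le h E.1
  have h2 := lob_le h E.2
  have h3 := le_hib hv h E.1
  have h4 := le_hib hv h E.2
  omega

/-- set variable `i` to `b` -/
def setv (i : ℕ) (b : Bool) (s : ℕ × ℕ) : ℕ × ℕ :=
  if b then (s.1 ||| (1 <<< i), s.2) else (s.1, s.2 ||| (1 <<< i))

theorem tb_shift (i j : ℕ) : (1 <<< i : ℕ).testBit j = true → j = i := by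
  rw [Nat.one_shiftLeft, Nat.testBit_two_pow, decide_eq_true_eq]
  exact fun h => h.symm

theorem setv_inv {v : ℕ → ℕ} {s : ℕ × ℕ} (h : Inv v s.1 s.2) (i : ℕ) (b : Bool)
    (hi : v i = b.toNat) : Inv v (setv i b s).1 (setv i b s).2 := by
  cases b
  · refine ⟨h.1, fun j hj => ?_⟩
    simp only [setv, Bool.false_eq_true, if_false] at hj
    rw [Nat.testBit_or, Bool.or_eq_true] at hj
    rcases hj with hj | hj
    · exact h.2 j hj
    · rw [tb_shift i j hj]
      exact hi
  · refine ⟨fun j hj => ?_, h.2⟩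
    simp only [setv, if_true] at hj
    rw [Nat.testBit_or, Bool.or_eq_true] at hj
    rcases hj with hj | hj
    · exact h.1 j hj
    · rw [tb_shift i j hj]
      exact hi

/-- one step.  Even codes: implication with index `n / 2`.  Odd codes: equation `e` forces the
variable `i` to be `b`. -/
def step (eqs : List (List (ℕ × ℕ) × List (ℕ × ℕ))) (imps : List (ℕ × ℕ)) (n : ℕ) (s : ℕ × ℕ) :
    ℕ × ℕ :=
  if n % 2 = 0 then
    let t := imps.getD (n / 2) (0, 0)
    let s1 := if s.1.testBit t.1 then setv t.2 true s else s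
    if s1.2.testBit t.2 then setv t.1 false s1 else s1
  else
    let i := (n / 4) % 2048
    let b := decide ((n / 2) % 2 = 1)
    let s' := setv i (!b) s
    if infeas s'.1 s'.2 (eqs.getD (n / 8192) ([], [])) then setv i b s else s

/-- the hypotheses on the variables -/
structure Good (v : ℕ → ℕ) (eqs : List (List (ℕ × ℕ) × List (ℕ × ℕ))) (imps : List (ℕ × ℕ)) :
    Prop where
  le1 : ∀ i, v i ≤ 1
  eqs : ∀ E ∈ eqs, wsum v E.1 = wsum v E.2
  imps : ∀ t ∈ imps, v t.1 ≤ v t.2

theorem step_inv {v : ℕ → ℕ} {eqs : List (List (ℕ × ℕ) × List (ℕ × ℕ))} {imps : List (ℕ × ℕ)}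
    (hg : Good v eqs imps) (n : ℕ) {s : ℕ × ℕ} (h : Inv v s.1 s.2) :
    Inv v (step eqs imps n s).1 (step eqs imps n s).2 := by
  unfold step
  split_ifs with h0
  · -- implication
    have ht : v (imps.getD (n / 2) (0, 0)).1 ≤ v (imps.getD (n / 2) (0, 0)).2 := by
      rw [List.getD_eq_getElem?_getD]
      by_cases hlt : n / 2 < imps.length
      · rw [List.getElem?_eq_getElem hlt]
        exact hg.imps _ (List.getElem_mem hlt)
      · rw [List.getElem?_eq_none (not_lt.1 hlt)]
        exact le_rfl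
    generalize imps.getD (n / 2) (0, 0) = t at ht
    simp only
    have h1 : Inv v (if s.1.testBit t.1 then setv t.2 true s else s).1
        (if s.1.testBit t.1 then setv t.2 true s else s).2 := by
      split_ifs with h2
      · refine setv_inv h _ _ ?_
        have h3 := h.1 _ h2
        have h4 := hg.le1 t.2
        simp only [Bool.toNat_true]
        omega
      · exact h
    generalize (if s.1.testBit t.1 then setv t.2 true s else s) = s1 at h1
    split_ifs with h2
    · refine setv_inv h1 _ _ ?_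
      have h3 := h1.2 _ h2
      simp only [Bool.toNat_false]
      omega
    · exact h1
  · -- equation
    have hE : wsum v (eqs.getD (n / 8192) ([], [])).1 = wsum v (eqs.getD (n / 8192) ([], [])).2 := by
      rw [List.getD_eq_getElem?_getD]
      by_cases hlt : n / 8192 < eqs.length
      · rw [List.getElem?_eq_getElem hlt]
        exact hg.eqs _ (List.getElem_mem hlt)
      · rw [List.getElem?_eq_none (not_lt.1 hlt)]
        rfl
    generalize eqs.getD (n / 8192) ([], []) = E at hE
    generalize (n / 4) % 2048 = i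
    generalize decide ((n / 2) % 2 = 1) = b
    simp only
    split_ifs with h2
    · refine setv_inv h _ _ ?_
      by_contra hne
      have h3 : v i = (!b).toNat := by
        have := hg.le1 i
        cases b <;> simp at hne ⊢ <;> omega
      exact infeas_sound hg.le1 (setv_inv h i (!b) h3) E hE h2
    · exact h

/-- a list of steps -/
def run (eqs : List (List (ℕ × ℕ) × List (ℕ × ℕ))) (imps : List (ℕ × ℕ)) :
    List ℕ → ℕ × ℕ → ℕ × ℕ
  | [], s => s
  | n :: l, s => run eqs imps l (step eqs imps n s)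

theorem run_inv {v : ℕ → ℕ} {eqs : List (List (ℕ × ℕ) × List (ℕ × ℕ))} {imps : List (ℕ × ℕ)}
    (hg : Good v eqs imps) (l : List ℕ) {s : ℕ × ℕ} (h : Inv v s.1 s.2) :
    Inv v (run eqs imps l s).1 (run eqs imps l s).2 := by
  induction l generalizing s with
  | nil => exact h
  | cons n l ih => exact ih (step_inv hg n h)

theorem clash {v : ℕ → ℕ} {o z : ℕ} (h : Inv v o z) (h1 : (o &&& z == 0) = false) : False := by
  have h2 : o &&& z ≠ 0 := by simpa using h1
  obtain ⟨i, hi⟩ := Nat.exists_testBit_of_ne_zero h2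
  rw [Nat.testBit_and, Bool.and_eq_true] at hi
  have h3 := h.1 i hi.1
  have h4 := h.2 i hi.2
  omega

/-- the refutation: blocks `(2 i + b, sub, top)`; assuming that variable `i` is not `b`, the steps
`sub` give a contradiction; then the variable is set to `b` and the steps `top` follow. -/
def refute (eqs : List (List (ℕ × ℕ) × List (ℕ × ℕ))) (imps : List (ℕ × ℕ)) :
    List (ℕ × List ℕ × List ℕ) → ℕ × ℕ → Bool
  | [], s => !(s.1 &&& s.2 == 0)
  | (n, sub, top) :: l, s =>
    let b := decide (n % 2 = 1)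
    let s1 := run eqs imps sub (setv (n / 2) (!b) s)
    !(s1.1 &&& s1.2 == 0) && refute eqs imps l (run eqs imps top (setv (n / 2) b s))

theorem refute_sound {v : ℕ → ℕ} {eqs : List (List (ℕ × ℕ) × List (ℕ × ℕ))}
    {imps : List (ℕ × ℕ)} (hg : Good v eqs imps) (l : List (ℕ × List ℕ × List ℕ)) {s : ℕ × ℕ}
    (h : Inv v s.1 s.2) (hr : refute eqs imps l s = true) : False := by
  induction l generalizing s with
  | nil =>
    simp only [refute, Bool.not_eq_true'] at hr
    exact clash h hr
  | cons t l ih =>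
    obtain ⟨n, sub, top⟩ := t
    simp only [refute, Bool.and_eq_true, Bool.not_eq_true'] at hr
    generalize decide (n % 2 = 1) = b at hr
    obtain ⟨h1, h2⟩ := hr
    have hb : v (n / 2) = b.toNat := by
      by_contra hne
      have h3 : v (n / 2) = (!b).toNat := by
        have := hg.le1 (n / 2)
        cases b <;> simp at hne ⊢ <;> omega
      exact clash (run_inv hg sub (setv_inv h (n / 2) (!b) h3)) h1
    exact ih (run_inv hg top (setv_inv h (n / 2) b hb)) h2

/-! ### The variables: values on representatives -/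

/-- the permutations of the blocks, 3 bits per value -/
def pT : ℕ := 383033797031452859268144278513189284950510095162055940621756886638472677198715673688934504174937294953006728

/-- the permutation with index `s` -/
def pfF (s : ℕ) (a : Fin 5) : Fin 5 :=
  ⟨((pT >>> (3 * (5 * s + a.val))) % 8) % 5, Nat.mod_lt _ (by norm_num)⟩

theorem pf_ok : ∀ s, s < 24 → pfF s 0 = 0 ∧ ∀ a b, pfF s a = pfF s b → a = b := by
  decide +kernel

/-- the permutation with index `s` -/
noncomputable def pE (s : ℕ) (hs : s < 24) : Equiv.Perm (Fin 5) :=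
  Equiv.ofBijective (pfF s) (Finite.injective_iff_bijective.1 (fun a b h => (pf_ok s hs).2 a b h))

theorem pE_apply (s : ℕ) (hs : s < 24) (a : Fin 5) : pE s hs a = pfF s a := rfl

/-- representative with index `i` -/
def rp (rT i : ℕ) : ℕ := (rT >>> (25 * i)) % 33554432

/-- the variables -/
def vv (f : ℕ → ℤ) (rT i : ℕ) : ℕ :=
  if i = 0 then 0 else if i = 1 then 1 else (f (rp rT (i - 2))).toNat

/-- check that the mask has the value of the variable with the code -/
def okT (rT g c : ℕ) : Bool :=
  if c % 2048 = 0 then decide (∃ a : Fin 5, ∀ b : Fin 5, pK g a b = false ∧ pK g b a = false)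
  else if c % 2048 = 1 then decide (∃ a : Fin 5, ∀ b : Fin 5, pK g a b = true)
  else decide (c / 2048 < 24) && decide (∀ a b : Fin 5,
    pK (rp rT (c % 2048 - 2)) (pfF (c / 2048) a) (pfF (c / 2048) b) = pK g a b)

section

variable {f : ℕ → ℤ} {R : ℕ → ℕ → List ℕ → Prop}

theorem toNat_f (h : FK f R) (g : ℕ) : ((f g).toNat : ℤ) = f g := by
  rcases h.h01 g with h1 | h1 <;> rw [h1] <;> rfl

theorem vv_le (h : FK f R) (rT i : ℕ) : vv f rT i ≤ 1 := by
  unfold vv
  split_ifs
  · exact Nat.zero_le _
  · exact le_rfl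
  · rcases h.h01 (rp rT (i - 2)) with h1 | h1 <;> rw [h1] <;> decide

theorem f_perm (h : FK f R) (σ : Equiv.Perm (Fin 5)) (hσ : σ 0 = 0) (g g' : ℕ)
    (hg : ∀ a b, pK g' (σ a) (σ b) = pK g a b) : f g = f g' := by
  refine le_antisymm (h.emb0 σ hσ g g' fun a b hab => by rw [hg, hab])
    (h.emb0 σ.symm (by rw [Equiv.symm_apply_eq, hσ]) g' g fun a b hab => ?_)
  rw [← hg, Equiv.apply_symm_apply, Equiv.apply_symm_apply, hab]

theorem okT_sound (h : FK f R) (rT g c : ℕ) (hc : okT rT g c = true) :
    f g = (vv f rT (c % 2048) : ℤ) := by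
  unfold okT at hc
  unfold vv
  split_ifs at hc ⊢ with h1 h2
  · obtain ⟨a, ha⟩ := of_decide_eq_true hc
    exact h.isol g a ha
  · obtain ⟨a, ha⟩ := of_decide_eq_true hc
    exact h.univ g a ha
  · rw [Bool.and_eq_true, decide_eq_true_eq, decide_eq_true_eq] at hc
    obtain ⟨hs, hp⟩ := hc
    rw [toNat_f h]
    exact f_perm h (pE _ hs) (pf_ok _ hs).1 _ _ (fun a b => by
      rw [pE_apply, pE_apply]; exact hp a b)

/-- check of an implication: `c < 24` permutation and inclusion, otherwise swap of part `0` -/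
def okI (rT : ℕ) (t : ℕ × ℕ × ℕ) : Bool :=
  decide (2 ≤ t.1) && decide (2 ≤ t.2.1) &&
  (if t.2.2 < 24 then decide (∀ a b : Fin 5, pK (rp rT (t.1 - 2)) a b = true →
      pK (rp rT (t.2.1 - 2)) (pfF t.2.2 a) (pfF t.2.2 b) = true)
    else decide ((t.2.2 - 24) % 24 < 24) && decide ((t.2.2 - 24) / 24 < 24) &&
      decide (∀ i j : Fin 5, pK (rp rT (t.1 - 2)) i j = true →
        ∀ a : Fin 5, sw (pfF ((t.2.2 - 24) % 24) i) (pfF ((t.2.2 - 24) / 24) a) = true →
        ∀ b : Fin 5, sw (pfF ((t.2.2 - 24) % 24) j) (pfF ((t.2.2 - 24) / 24) b) = true →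
        pK (rp rT (t.2.1 - 2)) a b = true))

theorem okI_sound (h : FK f R) (rT : ℕ) (t : ℕ × ℕ × ℕ) (ht : okI rT t = true) :
    vv f rT t.1 ≤ vv f rT t.2.1 := by
  obtain ⟨a, b, c⟩ := t
  unfold okI at ht
  simp only at ht ⊢
  rw [Bool.and_eq_true, Bool.and_eq_true, decide_eq_true_eq, decide_eq_true_eq] at ht
  obtain ⟨⟨h1, h2⟩, h3⟩ := ht
  have key : f (rp rT (a - 2)) ≤ f (rp rT (b - 2)) := by
    split_ifs at h3 with h4
    · have h5 := of_decide_eq_true h3
      exact h.emb0 (pE _ h4) (pf_ok _ h4).1 _ _ h5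
    · rw [Bool.and_eq_true, Bool.and_eq_true, decide_eq_true_eq, decide_eq_true_eq] at h3
      obtain ⟨⟨h5, h6⟩, h7⟩ := h3
      have h8 := of_decide_eq_true h7
      exact h.emb1 (pE _ h5) (pE _ h6) (pf_ok _ h5).1 (pf_ok _ h6).1 _ _
        (fun i j x y hij hx hy => h8 i j hij x hx y hy)
  unfold vv
  rw [if_neg (by omega), if_neg (by omega), if_neg (by omega), if_neg (by omega)]
  exact Int.toNat_le_toNat key

/-! ### The relations -/

/-- the terms of an alternating sum -/
def altL : List ℕ → ℕ → Bool → List (Bool × ℕ)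
  | [], g, s => [(s, g)]
  | w :: ws, g, s => altL ws g s ++ altL ws (g ||| w) (!s)

/-- check of the codes of the terms, 16 bits per term -/
def chkL (rT : ℕ) : List (Bool × ℕ) → ℕ → Bool
  | [], _ => true
  | (_, m) :: l, T => okT rT m (T % 65536) && chkL rT l (T / 65536)

/-- the variables of the terms with sign `b` -/
def idxs (b : Bool) : List (Bool × ℕ) → ℕ → List ℕ
  | [], _ => []
  | (s, _) :: l, T =>
    if (s == b) && !((T % 65536) % 2048 == 0) then (T % 65536) % 2048 :: idxs b l (T / 65536)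
    else idxs b l (T / 65536)

/-- multiplicities as a list -/
def expand (l : List (ℕ × ℕ)) : List ℕ := l.flatMap (fun t => List.replicate t.1 t.2)

theorem sum_expand (v : ℕ → ℕ) (l : List (ℕ × ℕ)) : ((expand l).map v).sum = wsum v l := by
  induction l with
  | nil => rfl
  | cons t l ih =>
    have : expand (t :: l) = List.replicate t.1 t.2 ++ expand l := rfl
    rw [this, List.map_append, List.sum_append, ih]
    simp [wsum]

theorem altL_sum (f : ℕ → ℤ) (ws : List ℕ) (g : ℕ) (s : Bool) :
    ((altL ws g s).map (fun t => (if t.1 then -1 else 1) * f t.2)).sum =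
      (if s then -1 else 1) * altO f ws g := by
  induction ws generalizing g s with
  | nil => simp [altL, altO]
  | cons w ws ih =>
    rw [altL, List.map_append, List.sum_append, ih, ih, altO]
    cases s <;> simp <;> ring

theorem idxs_sum (h : FK f R) (rT : ℕ) (l : List (Bool × ℕ)) (T : ℕ) (hl : chkL rT l T = true) :
    (l.map (fun t => (if t.1 then -1 else 1) * f t.2)).sum =
      (((idxs false l T).map (vv f rT)).sum : ℤ) - (((idxs true l T).map (vv f rT)).sum : ℤ) := by
  induction l generalizing T with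
  | nil => simp [idxs]
  | cons t l ih =>
    obtain ⟨s, m⟩ := t
    rw [chkL, Bool.and_eq_true] at hl
    obtain ⟨h1, h2⟩ := hl
    have h3 := okT_sound h rT m _ h1
    rw [List.map_cons, List.sum_cons, ih _ h2, h3]
    simp only [idxs]
    generalize (T % 65536) % 2048 = c
    by_cases h0 : c = 0
    · rw [h0]
      have : vv f rT 0 = 0 := rfl
      rw [this]
      cases s <;> simp
    · cases s
      · simp only [beq_self_eq_true, Bool.true_and, beq_iff_eq, h0, Bool.not_eq_true',
          beq_eq_false_iff_ne, ne_eq, not_false_eq_true, if_true, List.map_cons, List.sum_cons,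
          Nat.cast_add, if_false, Bool.false_eq_true]
        simp
        ring
      · simp only [beq_self_eq_true, Bool.true_and, beq_iff_eq, h0, Bool.not_eq_true',
          beq_eq_false_iff_ne, ne_eq, not_false_eq_true, if_true, List.map_cons, List.sum_cons,
          Nat.cast_add, if_false]
        simp
        ring

/-- the block permutations of the relations -/
def pis : ℕ → Equiv.Perm (Fin 4)
  | 1 => ⟨![0, 1, 3, 2], ![0, 1, 3, 2], by decide, by decide⟩
  | 2 => ⟨![1, 0, 3, 2], ![1, 0, 3, 2], by decide, by decide⟩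
  | 3 => ⟨![0, 2, 3, 1], ![0, 3, 1, 2], by decide, by decide⟩
  | 4 => ⟨![1, 2, 3, 0], ![3, 0, 1, 2], by decide, by decide⟩
  | _ => ⟨![0, 1, 2, 3], ![0, 1, 2, 3], by decide, by decide⟩

/-- the marked blocks -/
def mks : ℕ → Fin 4 → Bool
  | 1 => ![true, true, true, false]
  | 2 => ![true, false, true, false]
  | 3 => ![true, true, false, false]
  | 4 => ![true, false, false, false]
  | _ => ![true, true, true, true]

/-- data of a relation: index of the permutation, base, classes, codes, positive part, negative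
part -/
structure RD where
  s : ℕ
  B : ℕ
  ws : List ℕ
  T : ℕ
  E : List (ℕ × ℕ) × List (ℕ × ℕ)

instance (π : Equiv.Perm (Fin 4)) (B : ℕ) (ws : List ℕ) : Decidable (OkRel π B ws) :=
  decidable_of_iff ((∀ A C, ad (pK B) A C = true → ad (pK B) (pip π A) (pip π C) = true) ∧
    (∀ w ∈ ws, ∀ A C, ad (pK w) A C = true → ad (pK w) (pip π A) (pip π C) = true) ∧
    (ws.Pairwise (fun w w' => ∀ A C, ad (pK w) A C = true → ad (pK w') A C = false)) ∧
    (∀ w ∈ ws, ∀ A C, ad (pK B) A C = true → ad (pK w) A C = false) ∧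
    (∀ w ∈ ws, ∃ A C : Fin 4, ad (pK w) A.succ C.succ = true) ∧
    (∀ w ∈ ws, ∀ C, ad (pK w) 0 C = false) ∧
    (∀ w ∈ ws, ∀ A C A' C' : Fin 4, ad (pK w) A.succ C.succ = true →
      ad (pK w) A'.succ C'.succ = true →
      ∃ t : Fin 4, ((⇑π)^[t.val] A = A' ∧ (⇑π)^[t.val] C = C') ∨
        ((⇑π)^[t.val] A = C' ∧ (⇑π)^[t.val] C = A')) ∧
    (12 ≤ (ws.map (fun w => ∑ A : Fin 5, ∑ C : Fin 5,
      if ad (pK w) A C = true then 1 else 0)).sum) ∧
    ((ws.map (fun w => ∑ A : Fin 5, if ad (pK w) A A = true then 1 else 0)).sum ≤ 4))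
  ⟨fun ⟨a, b, c, d, e, g, h, i, j⟩ => ⟨a, b, c, d, e, g, h, i, j⟩,
   fun ⟨a, b, c, d, e, g, h, i, j⟩ => ⟨a, b, c, d, e, g, h, i, j⟩⟩

/-- check of a relation -/
def okR (rT : ℕ) (d : RD) : Bool :=
  decide (OkRel (pis d.s) d.B d.ws) && (chkL rT (altL d.ws d.B false) d.T &&
    (idxs false (altL d.ws d.B false) d.T ++ expand d.E.2).isPerm
      (idxs true (altL d.ws d.B false) d.T ++ expand d.E.1))

theorem okR_sound (h : FK f (fun s B ws => OkRel (pis s) B ws)) (rT : ℕ) (d : RD)
    (hd : okR rT d = true) : wsum (vv f rT) d.E.1 = wsum (vv f rT) d.E.2 := by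
  unfold okR at hd
  rw [Bool.and_eq_true, Bool.and_eq_true, decide_eq_true_eq] at hd
  obtain ⟨h1, h2, h3⟩ := hd
  have h4 := h.rel d.s d.B d.ws h1
  have h5 := altL_sum f d.ws d.B false
  rw [h4, mul_zero, idxs_sum h rT _ _ h2, sub_eq_zero] at h5
  have h6 := List.isPerm_iff.1 h3
  have h7 := (h6.map (vv f rT)).sum_eq
  rw [List.map_append, List.map_append, List.sum_append, List.sum_append, sum_expand,
    sum_expand] at h7
  have h8 : ((idxs false (altL d.ws d.B false) d.T).map (vv f rT)).sum =
      ((idxs true (altL d.ws d.B false) d.T).map (vv f rT)).sum := by exact_mod_cast h5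
  omega

end

theorem hmk_all (s : ℕ) : ∀ i, ∃ t, ((pis s) ^ t) i = i ∧ mc (pis s) (mks s) t i = 1 := by
  intro i
  match s with
  | 0 => fin_cases i <;> exact ⟨1, by decide, by decide⟩
  | 1 =>
    fin_cases i
    · exact ⟨1, by decide, by decide⟩
    · exact ⟨1, by decide, by decide⟩
    · exact ⟨2, by decide, by decide⟩
    · exact ⟨2, by decide, by decide⟩
  | 2 => fin_cases i <;> exact ⟨2, by decide, by decide⟩
  | 3 =>
    fin_cases i
    · exact ⟨1, by decide, by decide⟩
    · exact ⟨3, by decide, by decide⟩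
    · exact ⟨3, by decide, by decide⟩
    · exact ⟨3, by decide, by decide⟩
  | 4 => fin_cases i <;> exact ⟨4, by decide, by decide⟩
  | n + 5 =>
    change ∃ t, ((pis 0) ^ t) i = i ∧ mc (pis 0) (mks 0) t i = 1
    fin_cases i <;> exact ⟨1, by decide, by decide⟩

/-- the facts for the values of a property in the star case -/
theorem fK_FK {n q : ℕ} {P : SimpleGraph (Fin n) → Prop} (hP : GP n q P) (hS : Star n P)
    (r p : ℕ) [Fact p.Prime] (hp : 2 < p) (hr : 0 < r) (hrp : r ≤ p) (hn : r + 4 * p = n)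
    (hq : q + 2 * p < 6 * (p * p)) :
    FK (fK P r p) (fun s B ws => OkRel (pis s) B ws) where
  h01 := fun _ => hv01 P _ _
  emb0 := fun σ hσ g g' h => fK_emb0 hP r p σ hσ g g' h
  emb1 := fun σ τ hσ hτ g g' h => fK_emb1 hP r p hrp σ τ hσ hτ g g' h
  isol := fun g a h => fK_isol hP hS r p (by omega) hr g a h
  univ := fun g a h => fK_univ hP hS r p (by omega) hr hn g a h
  rel := fun s B ws h => rel_alt hP r p hp hn hq (pis s) (mks s) (hmk_all s) B ws h

end Pool.Agent.W5h78.Karp
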